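import Pool.Agent.U337.EM.Stm

/-!
# Project EM, package O: modules with connection over `F[t]`
-/

set_option autoImplicit false

namespace Pool.Agent.U928.EM

open Polynomial

section
variable {F : Type} [Field F] {P Q : Type} [AddCommGroup P] [Module F[X] P]
  [AddCommGroup Q] [Module F[X] Q] (T : P →ₗ[F[X]] Q) (nP : P →+ P) (nQ : Q →+ Q)

lemma step_mem (hQ : ∀ (a : F[X]) q, nQ (a • q) = derivative a • q + a • nQ q)
    (hT : ∀ p, T (nP p) = nQ (T p)) (t₀ : F) (q : Q)
    (h : (X - C t₀ : F[X]) • q ∈ LinearMap.range T) (n : ℕ) :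
    (X - C t₀ : F[X]) • nQ^[n + 1] q + (n + 1) • nQ^[n] q ∈ LinearMap.range T := by
  have hstab : ∀ z ∈ LinearMap.range T, nQ z ∈ LinearMap.range T := by
    rintro z ⟨p, rfl⟩
    exact ⟨nP p, hT p⟩
  have hd : ∀ z, nQ ((X - C t₀ : F[X]) • z) = z + (X - C t₀ : F[X]) • nQ z := by
    intro z
    rw [hQ]
    simp
  induction n with
  | zero =>
    have h1 := hstab _ h
    rw [hd] at h1
    simp only [zero_add, Function.iterate_one, one_smul, Function.iterate_zero, id_eq]
    rwa [add_comm]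
  | succ n ih =>
    have h1 := hstab _ ih
    rw [map_add, hd, map_nsmul] at h1
    rw [Function.iterate_succ_apply' nQ (n + 1), Function.iterate_succ_apply' nQ n]
    rw [Function.iterate_succ_apply' nQ n] at h1
    have h2 : (X - C t₀ : F[X]) • nQ (nQ (nQ^[n] q)) + (n + 1 + 1) • nQ (nQ^[n] q) =
        nQ (nQ^[n] q) + (X - C t₀ : F[X]) • nQ (nQ (nQ^[n] q)) + (n + 1) • nQ (nQ^[n] q) := by
      rw [succ_nsmul (nQ (nQ^[n] q)) (n + 1)]
      abel
    rw [h2]
    exact h1

end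

theorem t_O : Pool.Agent.U337.EM.S_O := by
  intro F _ _ P Q _ _ _ _ _ T nP nQ hP hQ hT t₀ p q hpq
  have hmem : (X - C t₀ : F[X]) • q ∈ LinearMap.range T := ⟨p, hpq⟩
  have hst := step_mem T nP nQ hQ hT t₀ q hmem
  suffices hq : q ∈ LinearMap.range T by
    obtain ⟨p', hp'⟩ := hq
    exact ⟨p', by rw [map_sub, map_smul, hp', hpq, sub_self]⟩
  set N := LinearMap.range T with hN
  set c : ℕ → Q ⧸ N := fun n => Submodule.Quotient.mk (nQ^[n] q) with hc
  have hrec : ∀ n, (X - C t₀ : F[X]) • c (n + 1) + (n + 1) • c n = 0 := by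
    intro n
    have h1 := (Submodule.Quotient.mk_eq_zero N).2 (hst n)
    rw [Submodule.Quotient.mk_add, Submodule.Quotient.mk_smul] at h1
    rw [hc]
    simp only
    rw [← h1]
    congr 1
  have hu0 : (X - C t₀ : F[X]) • c 0 = 0 := by
    rw [hc]
    simp only [Function.iterate_zero, id_eq]
    rw [← Submodule.Quotient.mk_smul]
    exact (Submodule.Quotient.mk_eq_zero N).2 hmem
  have hstep : ∀ n, c n = ((X - C t₀ : F[X]) * C (-((n : F) + 1)⁻¹)) • c (n + 1) := by
    intro n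
    have hne : ((n : F) + 1) ≠ 0 := by exact_mod_cast Nat.succ_ne_zero n
    have h1 : (C ((n : F) + 1) : F[X]) • c n = (n + 1) • c n := by
      have h2 : (C ((n : F) + 1) : F[X]) = ((n + 1 : ℕ) : F[X]) := by
        push_cast
        simp
      rw [h2, Nat.cast_smul_eq_nsmul]
    have h3 : (n + 1) • c n = -((X - C t₀ : F[X]) • c (n + 1)) := by
      rw [eq_neg_iff_add_eq_zero, add_comm]
      exact hrec n
    have h4 : c n = (C (((n : F) + 1)⁻¹) : F[X]) • ((C ((n : F) + 1) : F[X]) • c n) := by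
      rw [smul_smul, ← C_mul, inv_mul_cancel₀ hne, C_1, one_smul]
    rw [h4, h1, h3, ← neg_smul, smul_smul]
    congr 1
    rw [C_neg]
    ring
  have hall : ∀ n, ∃ r : F[X], c 0 = ((X - C t₀ : F[X]) ^ n * r) • c n := by
    intro n
    induction n with
    | zero => exact ⟨1, by simp⟩
    | succ n ih =>
      obtain ⟨r, hr⟩ := ih
      refine ⟨r * C (-((n : F) + 1)⁻¹), ?_⟩
      rw [hr, hstep n, smul_smul]
      congr 1
      ring
  have hinf : c 0 ∈ (⨅ i : ℕ, (Ideal.span {(X - C t₀ : F[X])}) ^ i • ⊤ : Submodule F[X] (Q ⧸ N)) := by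
    rw [Submodule.mem_iInf]
    intro n
    obtain ⟨r, hr⟩ := hall n
    rw [hr]
    exact Submodule.smul_mem_smul (Ideal.mul_mem_right _ _
      (Ideal.pow_mem_pow (Ideal.mem_span_singleton_self _) n)) Submodule.mem_top
  rw [Ideal.mem_iInf_smul_pow_eq_bot_iff] at hinf
  obtain ⟨⟨r, hr⟩, hr2⟩ := hinf
  obtain ⟨a, ha⟩ := Ideal.mem_span_singleton.1 hr
  simp only at hr2
  rw [ha, mul_comm, mul_smul, hu0, smul_zero] at hr2
  have h5 : (Submodule.Quotient.mk q : Q ⧸ N) = 0 := hr2.symm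
  exact (Submodule.Quotient.mk_eq_zero N).1 h5

end Pool.Agent.U928.EM
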